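import Pool.Agent.N89.BD.Stm
import Pool.Agent.H39R3.Tor.SUnit

/-!
# BD/SUF: the group of `S`-units of a number field is finitely generated
-/

set_option autoImplicit false

namespace Pool.Agent.N403.BDSUF

open IsDedekindDomain NumberField Pool.Agent.N89.BD

lemma val_le_one (K : Type) [Field K] [NumberField K] (v : HeightOneSpectrum (𝓞 K)) (x : K)
    (hx : IsIntegral ℤ x) : v.valuation K x ≤ 1 := by
  have h := v.valuation_le_one (K := K) (⟨x, hx⟩ : 𝓞 K)
  exact h

lemma le_unit (K : Type) [Field K] [NumberField K] (S : ℕ) :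
    SUn K S ≤ ({v | v.valuation K (S : K) ≠ 1} : Set (HeightOneSpectrum (𝓞 K))).unit K := by
  rintro u ⟨n, h1, h2⟩ v hv
  have hv1 : v.valuation K (S : K) = 1 := by
    by_contra h
    exact hv h
  have h3 := val_le_one K v _ h1
  have h4 := val_le_one K v _ h2
  rw [map_mul, map_pow, hv1, one_pow, one_mul] at h3 h4
  rw [Units.val_inv_eq_inv_val, map_inv₀] at h4
  have hu : v.valuation K (u : K) ≠ 0 := (Valuation.ne_zero_iff _).2 (Units.ne_zero u)
  refine le_antisymm h3 ?_
  have h5 : (1 : WithZero (Multiplicative ℤ)) ≤ v.valuation K (u : K) := by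
    rw [inv_le_one₀ (zero_lt_iff.2 hu)] at h4
    exact h4
  exact h5

lemma fin_primes (K : Type) [Field K] [NumberField K] (S : ℕ) (hS : 1 ≤ S) :
    ({v | v.valuation K (S : K) ≠ 1} : Set (HeightOneSpectrum (𝓞 K))).Finite := by
  have hI : Ideal.span {(S : 𝓞 K)} ≠ 0 := by
    rw [Ne, Ideal.zero_eq_bot, Ideal.span_singleton_eq_bot]
    exact_mod_cast (by omega : S ≠ 0)
  refine (Ideal.finite_factors hI).subset ?_
  intro v hv
  have h1 : v.valuation K (S : K) ≤ 1 := by
    have := v.valuation_le_one (K := K) (S : 𝓞 K)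
    simpa using this
  have h2 : v.valuation K (algebraMap (𝓞 K) K (S : 𝓞 K)) < 1 := by
    have : v.valuation K (S : K) < 1 := lt_of_le_of_ne h1 hv
    simpa using this
  exact (v.valuation_lt_one_iff_dvd (K := K) _).1 h2

theorem main : S_SUF := by
  intro K _ _ S hS
  set T : Set (HeightOneSpectrum (𝓞 K)) := {v | v.valuation K (S : K) ≠ 1} with hT
  have h0 := Pool.Agent.H39R3.Tor.sunit_fg K T (fin_primes K S hS)
  have h1 : Group.FG (T.unit K) := (Group.fg_iff_subgroup_fg _).2 h0
  have h2 : AddGroup.FG (Additive (T.unit K)) := GroupFG.iff_add_fg.1 h1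
  have h3 : Module.Finite ℤ (Additive (T.unit K)) := Module.Finite.iff_addGroup_fg.2 h2
  have hle : SUn K S ≤ T.unit K := le_unit K S
  let θ : Additive (SUn K S) →+ Additive (T.unit K) :=
    MonoidHom.toAdditive (Subgroup.inclusion hle)
  have hinj : Function.Injective θ.toIntLinearMap := by
    intro x y hxy
    have : (Subgroup.inclusion hle) (Additive.toMul x) = (Subgroup.inclusion hle) (Additive.toMul y) := hxy
    exact Additive.toMul.injective (Subgroup.inclusion_injective hle this)
  have h5 : Module.Finite ℤ (Additive (SUn K S)) := Module.Finite.of_injective _ hinj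
  have h6 : AddGroup.FG (Additive (SUn K S)) := Module.Finite.iff_addGroup_fg.1 h5
  have h7 : Group.FG (SUn K S) := GroupFG.iff_add_fg.2 h6
  exact (Group.fg_iff_subgroup_fg _).1 h7

end Pool.Agent.N403.BDSUF
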