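import Mathlib
import Pool.Agent.N89.BD.Stm

/-!
# BD/TOR: bounded torsion in all large characteristics

Project BD (helper89); this file by helper403.
-/

set_option autoImplicit false

namespace Pool.Agent.N403.BD

open Pool.Agent.H901R3.MS Pool.Agent.N89.BD WeierstrassCurve Filter Topology

/-! ### The recursion -/

section ring

variable {R S : Type} [CommRing R] [CommRing S]

/-- `x^3 + a x + b` -/
def ff (a b x : R) : R := x ^ 3 + a * x + b

/-- addition of the point `P = (x, y)` to the point `(A / W, y B / W)` -/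
def st (f x : R) (t : R × R × R) : R × R × R :=
  ((t.1 - x * t.2.2) * (f * (t.2.1 - t.2.2) ^ 2 * t.2.2 -
      (t.1 - x * t.2.2) ^ 2 * (t.1 + x * t.2.2)),
    -((t.2.1 - t.2.2) * (f * (t.2.1 - t.2.2) ^ 2 * t.2.2 -
      (t.1 - x * t.2.2) ^ 2 * (t.1 + 2 * x * t.2.2)) + (t.1 - x * t.2.2) ^ 3 * t.2.2),
    (t.1 - x * t.2.2) ^ 3 * t.2.2)

/-- `(n + 2) P = (A / W, y B / W)` -/
def sq (a b x : R) : ℕ → R × R × R
  | 0 => (2 * ff a b x * ((3 * x ^ 2 + a) ^ 2 - 8 * x * ff a b x),
      -((3 * x ^ 2 + a) * ((3 * x ^ 2 + a) ^ 2 - 12 * x * ff a b x) + 8 * ff a b x ^ 2),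
      8 * ff a b x ^ 2)
  | n + 1 => st (ff a b x) x (sq a b x n)

/-- the difference of the first coordinates -/
def al (a b x : R) (n : ℕ) : R := (sq a b x n).1 - x * (sq a b x n).2.2

theorem map_ff (φ : R →+* S) (a b x : R) : ff (φ a) (φ b) (φ x) = φ (ff a b x) := by
  simp [ff]

theorem map_sq (φ : R →+* S) (a b x : R) (n : ℕ) : sq (φ a) (φ b) (φ x) n =
    (φ (sq a b x n).1, φ (sq a b x n).2.1, φ (sq a b x n).2.2) := by
  induction n with
  | zero => simp [sq, map_ff, map_ofNat]
  | succ n ih =>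
    show st (ff (φ a) (φ b) (φ x)) (φ x) (sq (φ a) (φ b) (φ x) n) = _
    rw [ih, map_ff]
    simp [sq, st, map_ofNat]

theorem map_al (φ : R →+* S) (a b x : R) (n : ℕ) :
    al (φ a) (φ b) (φ x) n = φ (al a b x n) := by
  unfold al
  rw [map_sq]
  simp

end ring

/-! ### Multiples of a point -/

section point

variable {k : Type} [Field k] [DecidableEq k] {a b x y : k}

theorem mul_pt (h2 : (2 : k) ≠ 0) (h : (CV a b).toAffine.Nonsingular x y) (hy : y ≠ 0) (n : ℕ)
    (hn : ∀ j < n, al a b x j ≠ 0) : (sq a b x n).2.2 ≠ 0 ∧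
      ∃ h' : (CV a b).toAffine.Nonsingular ((sq a b x n).1 / (sq a b x n).2.2)
        (y * ((sq a b x n).2.1 / (sq a b x n).2.2)),
      (n + 2) • (Affine.Point.some x y h : Pt a b) = Affine.Point.some _ _ h' := by
  have hf : y ^ 2 = ff a b x := eqn_of h
  have hf0 : ff a b x ≠ 0 := by rw [← hf]; exact pow_ne_zero _ hy
  induction n with
  | zero =>
    have h8 : (8 : k) ≠ 0 := by
      have : (8 : k) = 2 ^ 3 := by norm_num
      rw [this]
      exact pow_ne_zero _ h2
    have hW : (sq a b x 0).2.2 ≠ 0 := mul_ne_zero h8 (pow_ne_zero _ hf0)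
    refine ⟨hW, ?_⟩
    have hyy : y ≠ -y := by
      intro h3
      have h4 : 2 * y = 0 := by linear_combination h3
      exact (mul_ne_zero h2 hy) h4
    obtain ⟨h', h5⟩ := add_dbl (a := a) (b := b) h h rfl hyy ((3 * x ^ 2 + a) / (2 * y))
      ((sq a b x 0).1 / (sq a b x 0).2.2) (y * ((sq a b x 0).2.1 / (sq a b x 0).2.2)) rfl (by
        simp only [sq]
        field_simp
        rw [hf]
        ring) (by
        simp only [sq]
        field_simp
        simp only [hf]
        ring)
    refine ⟨h', ?_⟩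
    rw [zero_add, two_smul]
    exact h5
  | succ n ih =>
    obtain ⟨hW, h', h5⟩ := ih fun j hj => hn j (by omega)
    have hal : al a b x n ≠ 0 := hn n (by omega)
    have hal' : (sq a b x n).1 - x * (sq a b x n).2.2 ≠ 0 := hal
    have hW' : (sq a b x (n + 1)).2.2 ≠ 0 := mul_ne_zero (pow_ne_zero _ hal) hW
    refine ⟨hW', ?_⟩
    have hx : (sq a b x n).1 / (sq a b x n).2.2 ≠ x := by
      intro h6
      rw [div_eq_iff hW] at h6
      exact hal' (by rw [h6]; ring)
    have e0 : sq a b x (n + 1) = st (ff a b x) x (sq a b x n) := rfl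
    obtain ⟨h'', h7⟩ := add_ne (a := a) (b := b) h' h hx
      (y * ((sq a b x n).2.1 - (sq a b x n).2.2) / ((sq a b x n).1 - x * (sq a b x n).2.2))
      ((sq a b x (n + 1)).1 / (sq a b x (n + 1)).2.2)
      (y * ((sq a b x (n + 1)).2.1 / (sq a b x (n + 1)).2.2)) (by
        have e1 : (sq a b x n).1 / (sq a b x n).2.2 - x =
            ((sq a b x n).1 - x * (sq a b x n).2.2) / (sq a b x n).2.2 := by
          field_simp
        have e2 : y * ((sq a b x n).2.1 / (sq a b x n).2.2) - y =
            (y * ((sq a b x n).2.1 - (sq a b x n).2.2)) / (sq a b x n).2.2 := by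
          field_simp
        rw [e1, e2]
        field_simp) (by
        rw [e0]
        simp only [st]
        rw [div_pow, mul_pow, hf]
        generalize (sq a b x n).1 = A at *
        generalize (sq a b x n).2.1 = B at *
        generalize (sq a b x n).2.2 = W at *
        generalize hα : A - x * W = α at *
        have hA : A = α + x * W := by rw [← hα]; ring
        rw [hA]
        field_simp
        ring) (by
        have e3 : (y * ((sq a b x n).2.1 - (sq a b x n).2.2) /
            ((sq a b x n).1 - x * (sq a b x n).2.2)) =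
            y * (((sq a b x n).2.1 - (sq a b x n).2.2) /
              ((sq a b x n).1 - x * (sq a b x n).2.2)) := by ring
        rw [e3, e0]
        simp only [st]
        generalize (sq a b x n).1 = A at *
        generalize (sq a b x n).2.1 = B at *
        generalize (sq a b x n).2.2 = W at *
        generalize hα : A - x * W = α at *
        have hA : A = α + x * W := by rw [← hα]; ring
        generalize hβ : B - W = β at *
        have hB : B = β + W := by rw [← hβ]; ring
        rw [hA, hB]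
        field_simp
        ring)
    refine ⟨h'', ?_⟩
    rw [show n + 1 + 2 = (n + 2) + 1 by ring, add_smul, one_smul, h5]
    exact h7

end point

/-! ### The recursion does not degenerate -/

section real

theorem lim_ff (a b : ℝ) : Tendsto (fun x : ℝ => ff a b x / x ^ 3) atTop (𝓝 1) := by
  have h1 : Tendsto (fun x : ℝ => 1 + a / x ^ 2 + b / x ^ 3) atTop (𝓝 (1 + 0 + 0)) :=
    (tendsto_const_nhds.add (Tendsto.const_div_atTop (tendsto_pow_atTop (by norm_num)) a)).add
      (Tendsto.const_div_atTop (tendsto_pow_atTop (by norm_num)) b)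
  simp only [add_zero] at h1
  refine h1.congr' ?_
  filter_upwards [eventually_ne_atTop (0 : ℝ)] with x hx
  unfold ff
  field_simp

theorem lim_hh (a : ℝ) : Tendsto (fun x : ℝ => (3 * x ^ 2 + a) / x ^ 2) atTop (𝓝 3) := by
  have h1 : Tendsto (fun x : ℝ => 3 + a / x ^ 2) atTop (𝓝 (3 + 0)) :=
    tendsto_const_nhds.add (Tendsto.const_div_atTop (tendsto_pow_atTop (by norm_num)) a)
  simp only [add_zero] at h1
  refine h1.congr' ?_
  filter_upwards [eventually_ne_atTop (0 : ℝ)] with x hx
  field_simp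

theorem ev_ff (a b : ℝ) : ∀ᶠ x : ℝ in atTop, ff a b x ≠ 0 := by
  filter_upwards [(lim_ff a b).eventually_ne one_ne_zero] with x hx h
  rw [h, zero_div] at hx
  exact hx rfl

theorem asy (a b : ℝ) (n : ℕ) :
    Tendsto (fun x : ℝ => (sq a b x n).1 / (x * (sq a b x n).2.2)) atTop
      (𝓝 (1 / ((n : ℝ) + 2) ^ 2)) ∧
    Tendsto (fun x : ℝ => (sq a b x n).2.1 / (sq a b x n).2.2) atTop
      (𝓝 (1 / ((n : ℝ) + 2) ^ 3)) ∧
    ∀ᶠ x : ℝ in atTop, (sq a b x n).2.2 ≠ 0 := by
  induction n with
  | zero =>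
    have hg := lim_ff a b
    have hh := lim_hh a
    refine ⟨?_, ?_, ?_⟩
    · have h1 := ((hh.pow 2).sub (hg.const_mul 8)).div (hg.const_mul 4) (by norm_num)
      have h2 : ((3 : ℝ) ^ 2 - 8 * 1) / (4 * 1) = 1 / (((0 : ℕ) : ℝ) + 2) ^ 2 := by norm_num
      rw [h2] at h1
      refine h1.congr' ?_
      filter_upwards [eventually_ne_atTop (0 : ℝ), ev_ff a b] with x hx hf
      simp only [sq, Pi.div_apply]
      field_simp
      ring
    · have h1 := (((hh.mul ((hh.pow 2).sub (hg.const_mul 12))).div ((hg.pow 2).const_mul 8)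
        (by norm_num)).add_const 1).neg
      have h2 : -((3 : ℝ) * (3 ^ 2 - 12 * 1) / (8 * 1 ^ 2) + 1) = 1 / (((0 : ℕ) : ℝ) + 2) ^ 3 := by
        norm_num
      rw [h2] at h1
      refine h1.congr' ?_
      filter_upwards [eventually_ne_atTop (0 : ℝ), ev_ff a b] with x hx hf
      simp only [sq, Pi.div_apply]
      field_simp
    · filter_upwards [ev_ff a b] with x hf
      exact mul_ne_zero (by norm_num) (pow_ne_zero _ hf)
  | succ n ih =>
    obtain ⟨h1, h2, h3⟩ := ih
    have hg := lim_ff a b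
    obtain ⟨c, hc⟩ : ∃ c : ℝ, c = (n : ℝ) + 2 := ⟨_, rfl⟩
    have hc2 : 2 ≤ c := by
      rw [hc]
      have : (0 : ℝ) ≤ (n : ℝ) := Nat.cast_nonneg _
      linarith
    have hc' : ((n + 1 : ℕ) : ℝ) + 2 = c + 1 := by
      rw [hc]
      push_cast
      ring
    rw [← hc] at h1 h2
    rw [hc']
    have hne : 1 / c ^ 2 - 1 ≠ 0 := by
      have h4 : 1 / c ^ 2 < 1 := by
        rw [div_lt_one (by positivity)]
        nlinarith
      linarith
    have hev : ∀ᶠ x : ℝ in atTop, (sq a b x n).1 - x * (sq a b x n).2.2 ≠ 0 := by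
      filter_upwards [h1.eventually_ne (show 1 / c ^ 2 ≠ 1 from fun h => hne (by rw [h]; ring)),
        h3, eventually_ne_atTop (0 : ℝ)] with x hx hW hx0 h
      apply hx
      rw [div_eq_one_iff_eq (mul_ne_zero hx0 hW)]
      linarith
    have hc0 : c ≠ 0 := by positivity
    have hc1 : c ^ 2 - 1 ≠ 0 := by nlinarith
    have hc3 : 1 - c ^ 2 ≠ 0 := by nlinarith
    have hc4 : c + 1 ≠ 0 := by positivity
    refine ⟨?_, ?_, ?_⟩
    · have k1 := (((hg.mul ((h2.sub_const 1).pow 2))).sub (((h1.sub_const 1).pow 2).mul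
        (h1.add_const 1))).div ((h1.sub_const 1).pow 2) (pow_ne_zero _ hne)
      have k2 : (1 * (1 / c ^ 3 - 1) ^ 2 - (1 / c ^ 2 - 1) ^ 2 * (1 / c ^ 2 + 1)) /
          (1 / c ^ 2 - 1) ^ 2 = 1 / (c + 1) ^ 2 := by
        have e1 : 1 / c ^ 2 - 1 = (1 - c ^ 2) / c ^ 2 := by field_simp
        have e2 : 1 / c ^ 3 - 1 = (1 - c ^ 3) / c ^ 3 := by field_simp
        rw [e1, e2]
        field_simp
        ring
      rw [k2] at k1
      refine k1.congr' ?_
      filter_upwards [eventually_ne_atTop (0 : ℝ), h3, hev] with x hx hW hal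
      show _ = (st (ff a b x) x (sq a b x n)).1 / (x * (st (ff a b x) x (sq a b x n)).2.2)
      simp only [st, Pi.div_apply]
      generalize (sq a b x n).1 = A at *
      generalize (sq a b x n).2.1 = B at *
      generalize (sq a b x n).2.2 = W at *
      have e1 : A / (x * W) - 1 = (A - x * W) / (x * W) := by field_simp
      rw [e1]
      generalize hα : A - x * W = α at *
      have hA : A = α + x * W := by rw [← hα]; ring
      rw [hA]
      field_simp
    · have k1 := (((((h2.sub_const 1).mul ((hg.mul ((h2.sub_const 1).pow 2)).sub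
        (((h1.sub_const 1).pow 2).mul (h1.add_const 2))))).div ((h1.sub_const 1).pow 3)
        (pow_ne_zero _ hne)).add_const 1).neg
      have k2 : -((1 / c ^ 3 - 1) * (1 * (1 / c ^ 3 - 1) ^ 2 - (1 / c ^ 2 - 1) ^ 2 *
          (1 / c ^ 2 + 2)) / (1 / c ^ 2 - 1) ^ 3 + 1) = 1 / (c + 1) ^ 3 := by
        have e1 : 1 / c ^ 2 - 1 = (1 - c ^ 2) / c ^ 2 := by field_simp
        have e2 : 1 / c ^ 3 - 1 = (1 - c ^ 3) / c ^ 3 := by field_simp
        rw [e1, e2]
        field_simp
        ring
      rw [k2] at k1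
      refine k1.congr' ?_
      filter_upwards [eventually_ne_atTop (0 : ℝ), h3, hev] with x hx hW hal
      show _ = (st (ff a b x) x (sq a b x n)).2.1 / ((st (ff a b x) x (sq a b x n)).2.2)
      simp only [st, Pi.div_apply]
      generalize (sq a b x n).1 = A at *
      generalize (sq a b x n).2.1 = B at *
      generalize (sq a b x n).2.2 = W at *
      have e1 : A / (x * W) - 1 = (A - x * W) / (x * W) := by field_simp
      rw [e1]
      generalize hα : A - x * W = α at *
      have hA : A = α + x * W := by rw [← hα]; ring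
      rw [hA]
      field_simp
    · filter_upwards [h3, hev] with x hW hal
      exact mul_ne_zero (pow_ne_zero _ hal) hW

theorem ev_al (a b : ℝ) (n : ℕ) : ∀ᶠ x : ℝ in atTop, al a b x n ≠ 0 := by
  obtain ⟨h1, -, h3⟩ := asy a b n
  have hne : 1 / ((n : ℝ) + 2) ^ 2 ≠ 1 := by
    have h0 : (0 : ℝ) ≤ (n : ℝ) := Nat.cast_nonneg _
    have h4 : 1 / ((n : ℝ) + 2) ^ 2 < 1 := by
      rw [div_lt_one (by positivity)]
      nlinarith
    exact h4.ne
  filter_upwards [h1.eventually_ne hne, h3, eventually_ne_atTop (0 : ℝ)] with x hx hW hx0 h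
  apply hx
  rw [div_eq_one_iff_eq (mul_ne_zero hx0 hW)]
  unfold al at h
  linarith

end real

/-! ### The polynomial whose roots are the first coordinates of the torsion points -/

section count

open Polynomial

/-- the product of `f` and of the differences -/
noncomputable def DD {R : Type} [CommRing R] (a b x : R) (m : ℕ) : R :=
  ff a b x * ∏ j ∈ Finset.range m, al a b x j

theorem map_DD {R S : Type} [CommRing R] [CommRing S] (φ : R →+* S) (a b x : R) (m : ℕ) :
    DD (φ a) (φ b) (φ x) m = φ (DD a b x m) := by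
  unfold DD
  rw [map_mul, map_prod, map_ff]
  congr 1
  exact Finset.prod_congr rfl fun j _ => map_al φ a b x j

theorem DD_ne (a b : ℤ) (m : ℕ) : DD (C a) (C b) (X : ℤ[X]) m ≠ 0 := by
  intro h
  have h1 : ∀ x : ℝ, DD (a : ℝ) (b : ℝ) x m = 0 := by
    intro x
    have h2 := map_DD (eval₂RingHom (Int.castRingHom ℝ) x) (C a) (C b) (X : ℤ[X]) m
    rw [h, map_zero] at h2
    simpa using h2
  have h3 : ∀ᶠ x : ℝ in atTop, DD (a : ℝ) (b : ℝ) x m ≠ 0 := by
    have h4 : ∀ᶠ x : ℝ in atTop, ∀ j ∈ Finset.range m, al (a : ℝ) (b : ℝ) x j ≠ 0 :=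
      (Finset.eventually_all _).2 fun j _ => ev_al _ _ j
    filter_upwards [ev_ff (a : ℝ) (b : ℝ), h4] with x hx hx'
    exact mul_ne_zero hx (Finset.prod_ne_zero_iff.2 hx')
  obtain ⟨x, hx⟩ := h3.exists
  exact hx (h1 x)

/-- **Bounded torsion in all large characteristics.** -/
theorem main : S_TOR := by
  classical
  intro a b _ m hm
  obtain ⟨D, hD⟩ : ∃ D : ℤ[X], D = DD (C a) (C b) X m := ⟨_, rfl⟩
  have hD0 : D ≠ 0 := by rw [hD]; exact DD_ne a b m
  refine ⟨2 * D.natDegree + 1, D.leadingCoeff.natAbs + 3, ?_⟩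
  intro p hp hpp k _ _ _
  have h2 : (2 : k) ≠ 0 := by
    have h3 : ((2 : ℕ) : k) ≠ 0 := by
      rw [Ne, CharP.cast_eq_zero_iff k p]
      intro h
      have := Nat.le_of_dvd (by norm_num) h
      omega
    exact_mod_cast h3
  have hlc : (D.leadingCoeff : k) ≠ 0 := by
    rw [Ne, CharP.intCast_eq_zero_iff k p]
    intro h
    have h3 : D.leadingCoeff ≠ 0 := leadingCoeff_ne_zero.2 hD0
    have h4 := Int.natAbs_dvd_natAbs.2 h
    rw [Int.natAbs_natCast] at h4
    have := Nat.le_of_dvd (Int.natAbs_pos.2 h3) h4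
    omega
  obtain ⟨Dk, hDk⟩ : ∃ Dk : k[X], Dk = D.map (Int.castRingHom k) := ⟨_, rfl⟩
  have hDk0 : Dk ≠ 0 := by
    intro h
    apply hlc
    have h3 : Dk.coeff D.natDegree = (D.leadingCoeff : k) := by
      rw [hDk, coeff_map, eq_intCast]
      rfl
    rw [← h3, h, coeff_zero]
  have hroot : ∀ (x y : k) (h : (CV (a : k) (b : k)).toAffine.Nonsingular x y),
      m • (Affine.Point.some x y h : Pt (a : k) (b : k)) = 0 → Dk.eval x = 0 := by
    intro x y h hm0
    have h3 : Dk.eval x = DD (a : k) (b : k) x m := by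
      rw [hDk, eval_map, ← coe_eval₂RingHom, hD, ← map_DD]
      simp
    rw [h3]
    by_contra hne
    have hf0 : ff (a : k) (b : k) x ≠ 0 := left_ne_zero_of_mul hne
    have hal : ∀ j < m, al (a : k) (b : k) x j ≠ 0 := fun j hj =>
      (Finset.prod_ne_zero_iff.1 (right_ne_zero_of_mul hne)) j (Finset.mem_range.2 hj)
    have hy : y ≠ 0 := by
      intro hy
      apply hf0
      have h4 : y ^ 2 = ff (a : k) (b : k) x := eqn_of h
      rw [← h4, hy]
      ring
    rcases Nat.lt_or_ge m 2 with h5 | h5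
    · have h6 : m = 1 := by omega
      rw [h6, one_smul] at hm0
      exact Affine.Point.some_ne_zero h hm0
    · obtain ⟨n, rfl⟩ : ∃ n, m = n + 2 := ⟨m - 2, by omega⟩
      obtain ⟨-, h', h7⟩ := mul_pt h2 h hy n fun j hj => hal j (by omega)
      rw [h7] at hm0
      exact Affine.Point.some_ne_zero h' hm0
  -- counting
  obtain ⟨crd, hcrd0, hcrd⟩ : ∃ crd : Pt (a : k) (b : k) → Option (k × k), crd 0 = none ∧
      ∀ x y h, crd (Affine.Point.some x y h) = some (x, y) :=
    ⟨fun P => match P with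
      | Affine.Point.zero => none
      | Affine.Point.some x y _ => some (x, y), rfl, fun _ _ _ => rfl⟩
  have hinj : Function.Injective crd := by
    intro P Q hPQ
    rcases P with _ | ⟨x, y, h⟩
    · rcases Q with _ | ⟨x', y', h'⟩
      · rfl
      · change crd 0 = _ at hPQ
        rw [hcrd0, hcrd] at hPQ
        cases hPQ
    · rcases Q with _ | ⟨x', y', h'⟩
      · change _ = crd 0 at hPQ
        rw [hcrd0, hcrd] at hPQ
        cases hPQ
      · rw [hcrd, hcrd] at hPQ
        simp only [Option.some.injEq, Prod.mk.injEq] at hPQ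
        obtain ⟨rfl, rfl⟩ := hPQ
        rfl
  obtain ⟨T, hT⟩ : ∃ T : Finset (k × k), T = Dk.roots.toFinset.biUnion (fun x =>
    ((X ^ 2 - C (ff (a : k) (b : k) x)).roots.toFinset).image (fun y => (x, y))) := ⟨_, rfl⟩
  have hTc : T.card ≤ 2 * D.natDegree := by
    rw [hT]
    refine Finset.card_biUnion_le.trans ?_
    calc ∑ x ∈ Dk.roots.toFinset, (((X ^ 2 - C (ff (a : k) (b : k) x)).roots.toFinset).image
          (fun y => (x, y))).card ≤ ∑ _x ∈ Dk.roots.toFinset, 2 := by
          refine Finset.sum_le_sum fun x _ => Finset.card_image_le.trans ?_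
          refine (Multiset.toFinset_card_le _).trans ((card_roots' _).trans ?_)
          rw [natDegree_X_pow_sub_C]
      _ = Dk.roots.toFinset.card * 2 := by rw [Finset.sum_const, smul_eq_mul]
      _ ≤ D.natDegree * 2 := by
          refine Nat.mul_le_mul_right _ ((Multiset.toFinset_card_le _).trans
            ((card_roots' _).trans ?_))
          rw [hDk]
          exact natDegree_map_le
      _ = _ := by ring
  have hmem : ∀ P : Pt (a : k) (b : k), m • P = 0 → crd P ∈ insert none (T.image some) := by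
    intro P hP
    rcases P with _ | ⟨x, y, h⟩
    · change crd 0 ∈ _
      rw [hcrd0]
      exact Finset.mem_insert_self _ _
    · rw [hcrd]
      apply Finset.mem_insert_of_mem
      apply Finset.mem_image_of_mem
      rw [hT, Finset.mem_biUnion]
      refine ⟨x, ?_, ?_⟩
      · rw [Multiset.mem_toFinset, mem_roots hDk0]
        exact hroot x y h hP
      · apply Finset.mem_image_of_mem
        rw [Multiset.mem_toFinset, mem_roots (X_pow_sub_C_ne_zero (by norm_num) _)]
        show eval y (X ^ 2 - C (ff (a : k) (b : k) x)) = 0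
        have h4 : y ^ 2 = ff (a : k) (b : k) x := eqn_of h
        simp [h4]
  have hfin : ((insert none (T.image some) : Finset (Option (k × k))) :
      Set (Option (k × k))).Finite := Finset.finite_toSet _
  refine ⟨Set.Finite.of_finite_image (f := crd) (hfin.subset ?_) hinj.injOn, ?_⟩
  · rintro _ ⟨P, hP, rfl⟩
    exact hmem P hP
  · refine (Set.ncard_le_ncard_of_injOn crd (fun P hP => hmem P hP) hinj.injOn hfin).trans ?_
    rw [Set.ncard_coe_finset]
    refine (Finset.card_insert_le _ _).trans ?_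
    have := (Finset.card_image_le (s := T) (f := (some : k × k → Option (k × k))))
    omega

end count

end Pool.Agent.N403.BD
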